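import Pool.Agent.Helper53.AE.GoalsC
import Mathlib.Analysis.CStarAlgebra.ApproximateUnit

set_option autoImplicit false

open scoped ComplexOrder Topology
open Filter TopologicalSpace

namespace Pool.Agent.Helper37.AE.AUS

open Pool.Agent.Helper53.AE

theorem t : S_AUS := by
  intro J _ _
  let _ : PartialOrder J := CStarAlgebra.spectralOrder J
  have _ : StarOrderedRing J := CStarAlgebra.spectralOrderedRing J
  have hU := CStarAlgebra.increasingApproximateUnit J
  set l := CStarAlgebra.approximateUnit J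
  have : l.NeBot := hU.neBot
  obtain ⟨x, hx⟩ := exists_dense_seq J
  have key : ∀ n : ℕ, ∃ u : J, (star u = u ∧ ‖u‖ ≤ 1) ∧ ∀ i < n,
      ‖u * x i - x i‖ < 1 / ((n : ℝ) + 1) ∧ ‖x i * u - x i‖ < 1 / ((n : ℝ) + 1) := by
    intro n
    have hpos : (0 : ℝ) < 1 / ((n : ℝ) + 1) := by positivity
    have h1 : ∀ᶠ u in l, ∀ i ∈ Finset.range n,
        ‖u * x i - x i‖ < 1 / ((n : ℝ) + 1) ∧ ‖x i * u - x i‖ < 1 / ((n : ℝ) + 1) := by
      rw [Finset.eventually_all]
      intro i _
      have h2 := (Metric.tendsto_nhds.1 (hU.tendsto_mul_right (x i))) _ hpos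
      have h3 := (Metric.tendsto_nhds.1 (hU.tendsto_mul_left (x i))) _ hpos
      filter_upwards [h2, h3] with u hu hu'
      exact ⟨by simpa [dist_eq_norm] using hu, by simpa [dist_eq_norm] using hu'⟩
    have h4 : ∀ᶠ u in l, star u = u := hU.eventually_star_eq
    have h5 : ∀ᶠ u in l, ‖u‖ ≤ 1 := hU.eventually_norm
    obtain ⟨u, hu⟩ := (h1.and (h4.and h5)).exists
    exact ⟨u, ⟨hu.2.1, hu.2.2⟩, fun i hi => hu.1 i (Finset.mem_range.2 hi)⟩
  choose v hv hv' using key
  refine ⟨v, hv, ?_⟩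
  -- general step
  have gen : ∀ (f : ℕ → J → J), (∀ n a b, ‖f n a - f n b‖ ≤ ‖a - b‖) →
      (∀ n, ∀ i < n, ‖f n (x i) - x i‖ < 1 / ((n : ℝ) + 1)) →
      ∀ y, Tendsto (fun n => f n y) atTop (𝓝 y) := by
    intro f hf1 hf2 y
    rw [Metric.tendsto_atTop]
    intro ε hε
    obtain ⟨i, hi⟩ := hx.exists_dist_lt y (by positivity : (0 : ℝ) < ε / 4)
    obtain ⟨N, hN⟩ := exists_nat_one_div_lt (by positivity : (0 : ℝ) < ε / 4)
    refine ⟨max N (i + 1), fun n hn => ?_⟩
    have hnN : N ≤ n := le_trans (le_max_left _ _) hn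
    have hni : i < n := lt_of_lt_of_le (Nat.lt_succ_self i) (le_trans (le_max_right _ _) hn)
    have h1 : ‖f n y - f n (x i)‖ < ε / 4 := by
      refine lt_of_le_of_lt (hf1 n y (x i)) ?_
      simpa [dist_eq_norm] using hi
    have h2 : ‖f n (x i) - x i‖ < ε / 4 := by
      refine lt_of_lt_of_le (hf2 n i hni) (le_trans ?_ hN.le)
      apply one_div_le_one_div_of_le (by positivity)
      have : (N : ℝ) ≤ n := by exact_mod_cast hnN
      linarith
    have h3 : ‖x i - y‖ < ε / 4 := by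
      rw [← dist_eq_norm, dist_comm]; exact hi
    rw [dist_eq_norm]
    have e : f n y - y = (f n y - f n (x i)) + ((f n (x i) - x i) + (x i - y)) := by abel
    rw [e]
    calc _ ≤ ‖f n y - f n (x i)‖ + ‖(f n (x i) - x i) + (x i - y)‖ := norm_add_le _ _
      _ ≤ ‖f n y - f n (x i)‖ + (‖f n (x i) - x i‖ + ‖x i - y‖) := by
          gcongr; exact norm_add_le _ _
      _ < ε := by linarith
  intro y
  constructor
  · refine gen (fun n a => v n * a) ?_ (fun n i hi => (hv' n i hi).1) y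
    intro n a b
    rw [← mul_sub]
    calc _ ≤ ‖v n‖ * ‖a - b‖ := norm_mul_le _ _
      _ ≤ 1 * ‖a - b‖ := by gcongr; exact (hv n).2
      _ = ‖a - b‖ := one_mul _
  · refine gen (fun n a => a * v n) ?_ (fun n i hi => (hv' n i hi).2) y
    intro n a b
    rw [← sub_mul]
    calc _ ≤ ‖a - b‖ * ‖v n‖ := norm_mul_le _ _
      _ ≤ ‖a - b‖ * 1 := by gcongr; exact (hv n).2
      _ = ‖a - b‖ := mul_one _

end Pool.Agent.Helper37.AE.AUS
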